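import Mathlib

/-!
# Project BZ (helper38, MP_047497_nt, moment bounds for the Barnes zeta function): exact statements

`Q1` fails for `r = 2`, `a = 1`, `w = (1, α)`, `α` in a residual set of irrational numbers (`d = 2`), `1 < σ < 3/2`, every `k ≥ 1`.
-/

set_option autoImplicit false

open MeasureTheory Set Filter

namespace Pool.Agent.J4H38.BZ

noncomputable section

/-- the number of the `(m, n) ∈ ℕ²` (both `≥ 0`) with `1 + m + α n ≤ x` -/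
def NN (α x : ℝ) : ℕ := {p : ℕ × ℕ | 1 + (p.1 : ℝ) + α * (p.2 : ℝ) ≤ x}.ncard

/-- the remainder in logarithmic scale -/
def gg (α u : ℝ) : ℝ := if u < 0 then 0 else (NN α (Real.exp u) : ℝ) - Real.exp (2 * u) / (2 * α)

/-- its Laplace transform, `Re s > 1` -/
def GG (α : ℝ) (s : ℂ) : ℂ := ∫ u in Ioi (0 : ℝ), (gg α u : ℂ) * Complex.exp (-s * u)

/-- the Barnes double zeta function `ζ_2(s; 1, (1, α))`, `Re s > 1`, `s ≠ 2` -/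
def ZZ (α : ℝ) (s : ℂ) : ℂ := s * (GG α s + 1 / (2 * α * (s - 2)))

/-- the mean square -/
def II (α σ T : ℝ) : ℝ := ∫ t in (1 : ℝ)..T, ‖ZZ α (σ + t * Complex.I)‖ ^ 2

/-- the squared difference, weighted -/
def DI (α σ h : ℝ) : ENNReal := ∫⁻ u : ℝ, ENNReal.ofReal ((gg α (u + h) - gg α u) ^ 2 * Real.exp (-2 * σ * u))

/-- (BD), 100 lines.  `α p.2 ≤ x` forces finiteness; `N = ∑_{n ≤ (x-1)/α} (⌊x - α n - 1⌋ + 1) = ∑ (x - α n + O(1))`. -/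
def S_BD : Prop := (∀ α x : ℝ, 0 < α → {p : ℕ × ℕ | 1 + (p.1 : ℝ) + α * (p.2 : ℝ) ≤ x}.Finite) ∧
  (∀ α : ℝ, 0 < α → Monotone (fun x => (NN α x : ℝ))) ∧
  ∀ A : ℝ, 1 < A → ∃ C : ℝ, 0 ≤ C ∧ ∀ α : ℝ, 1 / A ≤ α → α ≤ A → ∀ x : ℝ, 1 ≤ x → |(NN α x : ℝ) - x ^ 2 / (2 * α)| ≤ C * x

/-- (LAP), 100 lines, from BD: `∫_0^∞ 1[λ ≤ e^u] e^{-su} du = λ^{-s}/s`, `∫_0^∞ e^{2u} e^{-su} du = 1/(s-2)`, exchange by absolute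
convergence (as `t_TR` in `Pool/Agent/J4H30/GS/Tr.lean`). -/
def S_LAP : Prop := ∀ (α : ℝ) (s : ℂ), 0 < α → 2 < s.re →
  HasSum (fun p : ℕ × ℕ => ((1 + (p.1 : ℝ) + α * (p.2 : ℝ) : ℝ) : ℂ) ^ (-s)) (ZZ α s)

/-- (DIF), 60 lines, from BD (`|gg α u| ≤ C e^u`): holomorphy of the Laplace transform; and `‖ZZ (conj s)‖ = ‖ZZ s‖`. -/
def S_DIF : Prop := ∀ α : ℝ, 0 < α → DifferentiableOn ℂ (GG α) {s : ℂ | 1 < s.re} ∧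
  DifferentiableOn ℂ (ZZ α) {s : ℂ | 1 < s.re ∧ s ≠ 2} ∧ ∀ s : ℂ, ‖ZZ α ((starRingEnd ℂ) s)‖ = ‖ZZ α s‖

/-- (UNI), 60 lines, from LAP and DIF: identity theorem; `{1 < Re s, s ≠ 2}` is preconnected (union of the convex sets
`Im s > 0`, `1 < Re s < 2`, `Im s < 0`, `Re s > 2`, all with `Re s > 1`). -/
def S_UNI : Prop := ∀ (α : ℝ) (Z : ℂ → ℂ), 0 < α → DifferentiableOn ℂ Z {s : ℂ | 1 < s.re ∧ s ≠ 2} →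
  (∀ s : ℂ, 2 < s.re → HasSum (fun p : ℕ × ℕ => ((1 + (p.1 : ℝ) + α * (p.2 : ℝ) : ℝ) : ℂ) ^ (-s)) (Z s)) →
  ∀ s : ℂ, 1 < s.re → s ≠ 2 → Z s = ZZ α s

/-- (CON), 120 lines, from BD.  `|GG α s - GG α₀ s| ≤ ∫ |gg α u - gg α₀ u| e^{-σu} du → 0` (dominated by `2 C e^{(1-σ)u}`; if `e^u` is
not one of the numbers `1 + m + α₀ n`, then `NN α (e^u) = NN α₀ (e^u)` for `α` near `α₀`: only finitely many `(m, n)` matter), so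
`ZZ α (σ + it) → ZZ α₀ (σ + it)` uniformly for `1 ≤ t ≤ T`. -/
def S_CON : Prop := ∀ (α₀ σ T : ℝ), 0 < α₀ → 1 < σ → 1 ≤ T → ContinuousAt (fun α => II α σ T) α₀

/-- (PL), 80 lines, from BD.  `f(u) = (gg α (u + h) - gg α u) e^{-σu}` is in `L¹ ∩ L²` and its Fourier transform at `ξ` is
`(e^{hs} - 1) GG α s`, `s = σ + 2πiξ`; `Pool.Agent.H153R4.plancherel`. -/
def S_PL : Prop := ∀ α σ h : ℝ, 0 < α → 1 < σ → 0 < h →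
  DI α σ h = ∫⁻ ξ : ℝ, ‖(Complex.exp (h * (σ + (2 * Real.pi * ξ : ℝ) * Complex.I)) - 1) *
    GG α (σ + (2 * Real.pi * ξ : ℝ) * Complex.I)‖ₑ ^ 2

/-- (UB), 120 lines, from DIF.  `GG α s = ZZ α s / s - 1/(2α(s-2))`, `‖e^{hs} - 1‖ ≤ min(e^{σ+1} h ‖s‖, e^{σ} + 1)`, `|t| ≤ 1`: bounded
`GG`; `1 ≤ |t| ≤ 1/h` and dyadic blocks `2^j/h ≤ |t| ≤ 2^{j+1}/h`; `t < 0` by symmetry. -/
def S_UB : Prop := ∀ α σ ε C : ℝ, 0 < α → 1 < σ → σ < 3 / 2 → 0 ≤ ε → ε < 1 → (∀ T : ℝ, 1 ≤ T → II α σ T ≤ C * T ^ (1 + ε)) →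
  ∃ C' : ℝ, ∀ h : ℝ, 0 < h → h ≤ 1 →
    ∫⁻ ξ : ℝ, ‖(Complex.exp (h * (σ + (2 * Real.pi * ξ : ℝ) * Complex.I)) - 1) *
      GG α (σ + (2 * Real.pi * ξ : ℝ) * Complex.I)‖ₑ ^ 2 ≤ ENNReal.ofReal (C' * h ^ (1 - ε))

/-- (LB), 120 lines, from BD (monotonicity).  `α = p/q`.  At an integer `l ≥ 2` the function `NN α` jumps by at least
`(l-1)/p ≥ l/(2p)` (`n = q n'`, `m = l - 1 - p n'`).  For `log l - h < u < log l`, `h ≤ 1/2`, `l ≤ κ/h`, `κ = 1/(8q)`: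
`gg α (u+h) - gg α u ≥ l/(2p) - 2 l² h/α ≥ l/(4p)`; these intervals are disjoint; sum over `κ/(2h) ≤ l ≤ κ/h`. -/
def S_LB : Prop := ∀ (p q : ℕ) (σ : ℝ), 1 ≤ p → 1 ≤ q → 1 < σ → σ < 3 / 2 → ∃ c h₀ : ℝ, 0 < c ∧ 0 < h₀ ∧ ∀ h : ℝ, 0 < h → h ≤ h₀ →
  ENNReal.ofReal (c * h ^ (2 * σ - 2)) ≤ DI ((p : ℝ) / q) σ h

/-- (RAT), 30 lines, from PL, UB, LB: `2σ - 2 < 1 - ε`. -/
def S_RAT : Prop := ∀ (p q : ℕ) (σ ε : ℝ), 1 ≤ p → 1 ≤ q → 1 < σ → σ < 3 / 2 → 0 ≤ ε → ε < 3 - 2 * σ →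
  ¬ ∃ C : ℝ, ∀ T : ℝ, 1 ≤ T → II ((p : ℝ) / q) σ T ≤ C * T ^ (1 + ε)

/-- (BAI), 80 lines, from CON and RAT.  `U_N = Iio 0 ∪ {α > 0 : ∃ T ≥ N, II α σ T > N T^{1+ε_N}}`, `ε_N = max 0 (3 - 2σ - 1/N)`, open and
dense (all `p/q`, as otherwise `II ≤ max(N, II(N)) T^{1+ε}` for all `T ≥ 1`). -/
def S_BAI : Prop := ∀ σ : ℝ, 1 < σ → σ < 3 / 2 → ∀ᶠ α in residual ℝ, 0 < α → ∀ ε : ℝ, 0 ≤ ε → ε < 3 - 2 * σ →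
  ¬ ∃ C : ℝ, ∀ T : ℝ, 1 ≤ T → II α σ T ≤ C * T ^ (1 + ε)

/-- (HOL), 60 lines, from DIF (continuity) and BAI: `II ≤ T^{1-1/k} (∫ ‖ZZ‖^{2k})^{1/k}`. -/
def S_HOL : Prop := ∀ σ : ℝ, 1 < σ → σ < 3 / 2 → ∀ᶠ α in residual ℝ, 0 < α → ∀ (k : ℕ) (ε : ℝ), 1 ≤ k → 0 ≤ ε → ε < k * (3 - 2 * σ) →
  ¬ ∃ C : ℝ, ∀ T : ℝ, 1 ≤ T → ∫ t in (1 : ℝ)..T, ‖ZZ α (σ + t * Complex.I)‖ ^ (2 * k) ≤ C * T ^ (1 + ε)

end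

end Pool.Agent.J4H38.BZ
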